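import Pool.Agent.Helper313WR.A9

/-!
# A lower bound in Malle's conjecture for the wreath products `S_k ≀ H`

Let `K` be a number field, `k ≥ 3`, and let `H ≤ S_h`, `h ≥ 2`, be the Galois group of some extension
`F/K` of degree `h` (acting on the embeddings). Let `G = S_k ≀ H ≤ S_n`, `n = h k`, in the imprimitive
action; then `a(G) = 1`. We show `N_{n,K}(X; G) ≥ c X ^ (1/2 + 1/k)`.

The proof (elementary; no sieve). Among the extensions `L/F` of degree `k` we count those with group
`S_k` by the packing argument of `MP_b39724_nt.SymmetricLower`: polynomials of trace zero over the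
integers of `F`, with congruence conditions. One of the congruence conditions is now at a prime `ℓ`
which splits completely in `F`: at one prime of `F` above `ℓ` the polynomial is an irreducible
quadratic times distinct linear factors, and at all the other ones it is a product of distinct linear
factors. So a Frobenius element acts on the embeddings of `L` over `K` as a transposition. The
transpositions of two embeddings with the same restriction to `F` are therefore all obtained, and the
Galois group of `L/K` is the whole wreath product.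
-/

set_option autoImplicit false

open Filter

namespace Pool.Agent.Results.MP_af4c59_nt.SymmetricWreathLower

/-- The fields `L` between `K` and its algebraic closure, of degree `n` over `K`, whose Galois group,
acting on the embeddings, is `G` (up to numbering), and whose relative discriminant has norm at most
`X` (that is, `|d_L| ≤ X |d_K| ^ n`). -/
def Ext (K : Type) [Field K] [NumberField K] (n : ℕ) (G : Subgroup (Equiv.Perm (Fin n)))
    (X : ℝ) : Set (IntermediateField K (AlgebraicClosure K)) :=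
  {L | Module.finrank K L = n ∧
    (∃ e : (L →ₐ[K] AlgebraicClosure K) ≃ Fin n, ∀ π : Equiv.Perm (Fin n),
      π ∈ G ↔ ∃ σ : AlgebraicClosure K ≃ₐ[K] AlgebraicClosure K,
        ∀ φ : L →ₐ[K] AlgebraicClosure K, e (σ.toAlgHom.comp φ) = π (e φ)) ∧
    ∃ h : NumberField L,
      ((|@NumberField.discr L _ h| : ℤ) : ℝ) ≤ X * ((|NumberField.discr K| : ℤ) : ℝ) ^ n}

/-- `G` is the Galois group of an extension of `K` of degree `n`. -/
def Occurs (K : Type) [Field K] [NumberField K] (n : ℕ) (G : Subgroup (Equiv.Perm (Fin n))) :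
    Prop :=
  ∃ X : ℝ, (Ext K n G X).Nonempty

/-- `G ≤ S_n` is, up to a bijection `f` of `{1, ..., n}` with `{1, ..., h} × {1, ..., k}`, the wreath
product `S_k ≀ H`, `H ≤ S_h`: it consists of all permutations `π` for which there is `η ∈ H` such that
`π` maps the block `{x} × {1, ..., k}` to the block `{η x} × {1, ..., k}`, for all `x`. -/
def IsSymWreath (k : ℕ) {h n : ℕ} (H : Subgroup (Equiv.Perm (Fin h)))
    (G : Subgroup (Equiv.Perm (Fin n))) : Prop :=
  ∃ f : Fin n ≃ Fin h × Fin k, ∀ π : Equiv.Perm (Fin n),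
    π ∈ G ↔ ∃ η ∈ H, ∀ i, (f (π i)).1 = η (f i).1

/-- The iterated wreath products of symmetric groups of degrees at least 3. -/
inductive IterWreath : (n : ℕ) → Subgroup (Equiv.Perm (Fin n)) → Prop
  | sym (n : ℕ) (hn : 3 ≤ n) : IterWreath n ⊤
  | wreath {k h n : ℕ} (hk : 3 ≤ k) {H : Subgroup (Equiv.Perm (Fin h))}
      {G : Subgroup (Equiv.Perm (Fin n))} (hH : IterWreath h H) (hG : IsSymWreath k H G) :
      IterWreath n G

theorem ext_eq (K : Type) [Field K] [NumberField K] (n : ℕ) (G : Subgroup (Equiv.Perm (Fin n)))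
    (X : ℝ) : Ext K n G X = Pool.Agent.Helper313WR.GFld K (AlgebraicClosure K) n G
      (X * ((|NumberField.discr K| : ℤ) : ℝ) ^ n) := rfl

theorem discr_pow_pos (K : Type) [Field K] [NumberField K] (n : ℕ) :
    (0 : ℝ) < ((|NumberField.discr K| : ℤ) : ℝ) ^ n := by
  have : (0 : ℝ) < ((|NumberField.discr K| : ℤ) : ℝ) := by
    exact_mod_cast abs_pos.2 (NumberField.discr_ne_zero K)
  positivity

theorem occurs_iff (K : Type) [Field K] [NumberField K] (n : ℕ)
    (G : Subgroup (Equiv.Perm (Fin n))) : Occurs K n G ↔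
      ∃ Y, (Pool.Agent.Helper313WR.GFld K (AlgebraicClosure K) n G Y).Nonempty := by
  constructor
  · rintro ⟨X, h⟩
    exact ⟨_, h⟩
  · rintro ⟨Y, h⟩
    refine ⟨Y / ((|NumberField.discr K| : ℤ) : ℝ) ^ n, ?_⟩
    rw [ext_eq, div_mul_cancel₀ _ (discr_pow_pos K n).ne']
    exact h

theorem lower (K : Type) [Field K] [NumberField K] {k h n : ℕ} (hk : 3 ≤ k)
    (H : Subgroup (Equiv.Perm (Fin h))) (G : Subgroup (Equiv.Perm (Fin n))) (hH : Occurs K h H)
    (hG : IsSymWreath k H G) :
    ∃ c : ℝ, 0 < c ∧ ∀ᶠ X : ℝ in atTop, (Ext K n G X).Finite ∧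
      c * X ^ ((1 : ℝ) / 2 + 1 / (k : ℝ)) ≤ ((Ext K n G X).ncard : ℝ) := by
  obtain ⟨f, hf⟩ := hG
  obtain ⟨c, hc, h1⟩ := Pool.Agent.Helper313WR.wreath_rel K (AlgebraicClosure K) hk H
    ((occurs_iff K h H).1 hH) G f hf
  refine ⟨c, hc, ?_⟩
  filter_upwards [h1] with X hX
  exact ⟨Pool.Agent.Helper313WR.finite_GFld K (AlgebraicClosure K) G _, hX⟩

theorem occurs_wreath (K : Type) [Field K] [NumberField K] {k h n : ℕ} (hk : 3 ≤ k)
    (H : Subgroup (Equiv.Perm (Fin h))) (G : Subgroup (Equiv.Perm (Fin n))) (hH : Occurs K h H)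
    (hG : IsSymWreath k H G) : Occurs K n G := by
  obtain ⟨c, hc, h1⟩ := lower K hk H G hH hG
  obtain ⟨X, ⟨hfin, hX⟩, hX1⟩ := (h1.and (eventually_gt_atTop (1 : ℝ))).exists
  refine ⟨X, (Set.ncard_pos hfin).1 ?_⟩
  have h2 : (0 : ℝ) < c * X ^ ((1 : ℝ) / 2 + 1 / (k : ℝ)) := by positivity
  exact_mod_cast lt_of_lt_of_le h2 hX

theorem occurs_iter (K : Type) [Field K] [NumberField K] {n : ℕ}
    {G : Subgroup (Equiv.Perm (Fin n))} (hG : IterWreath n G) : Occurs K n G := by
  induction hG with
  | sym n hn =>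
    exact (occurs_iff K n ⊤).2 (Pool.Agent.Helper313WR.occurs_top K (AlgebraicClosure K) hn)
  | wreath hk hH hG ih => exact occurs_wreath K hk _ _ ih hG

/-- Let `K` be a number field, `k ≥ 3`, `h ≥ 2` and `H ≤ S_h` a Galois group over `K`. For
`G = S_k ≀ H` the number of the `G`-extensions of `K` whose relative discriminant has norm at most `X`
is at least `c X ^ (1/2 + 1/k)` for all large `X`. In particular this holds over every number field if
`H` is an iterated wreath product of symmetric groups of degrees at least 3. The groups `S_k ≀ H` exist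
in degree `h k`. -/
theorem result :
    (∀ (K : Type) [Field K] [NumberField K] (k h n : ℕ), 3 ≤ k → 2 ≤ h →
      ∀ (H : Subgroup (Equiv.Perm (Fin h))) (G : Subgroup (Equiv.Perm (Fin n))),
      Occurs K h H → IsSymWreath k H G →
      ∃ c : ℝ, 0 < c ∧ ∀ᶠ X : ℝ in atTop, (Ext K n G X).Finite ∧
        c * X ^ ((1 : ℝ) / 2 + 1 / (k : ℝ)) ≤ ((Ext K n G X).ncard : ℝ)) ∧
    (∀ (K : Type) [Field K] [NumberField K] (n : ℕ) (G : Subgroup (Equiv.Perm (Fin n))),
      IterWreath n G → Occurs K n G) ∧
    (∀ (k h : ℕ) (H : Subgroup (Equiv.Perm (Fin h))),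
      ∃ G : Subgroup (Equiv.Perm (Fin (h * k))), IsSymWreath k H G) := by
  refine ⟨fun K _ _ k h n hk _ H G hH hG => lower K hk H G hH hG,
    fun K _ _ n G hG => occurs_iter K hG, fun k h H => ?_⟩
  let f : Fin (h * k) ≃ Fin h × Fin k := finProdFinEquiv.symm
  let G : Subgroup (Equiv.Perm (Fin (h * k))) :=
    { carrier := {π | ∃ η ∈ H, ∀ i, (f (π i)).1 = η (f i).1}
      mul_mem' := by
        rintro π π' ⟨η, hη, h1⟩ ⟨η', hη', h2⟩
        refine ⟨η * η', H.mul_mem hη hη', fun i => ?_⟩
        rw [Equiv.Perm.mul_apply, h1, h2, Equiv.Perm.mul_apply]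
      one_mem' := ⟨1, H.one_mem, fun i => rfl⟩
      inv_mem' := by
        rintro π ⟨η, hη, h1⟩
        refine ⟨η⁻¹, H.inv_mem hη, fun i => ?_⟩
        have h2 : π (π⁻¹ i) = i := π.apply_symm_apply i
        rw [Equiv.Perm.eq_inv_iff_eq, ← h1, h2] }
  exact ⟨G, f, fun π => Iff.rfl⟩

end Pool.Agent.Results.MP_af4c59_nt.SymmetricWreathLower
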